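import Mathlib

open scoped commutatorElement

namespace Pool.Agent.H.MP_c7d465_al

/-- The affine map `(u, v) ↦ (e u + f·v + a, e v + b)` of `F₃ × F₃ᵏ`, `e = ±1`. -/
@[ext] structure Af (k : ℕ) where
  e : ℤˣ
  f : Fin k → ZMod 3
  a : ZMod 3
  b : Fin k → ZMod 3

variable {k : ℕ}

instance : Mul (Af k) := ⟨fun g h => ⟨g.e * h.e, g.e • h.f + h.e • g.f, g.e • h.a + g.f ⬝ᵥ h.b + g.a, g.e • h.b + g.b⟩⟩
instance : One (Af k) := ⟨⟨1, 0, 0, 0⟩⟩
instance : Inv (Af k) := ⟨fun g => ⟨g.e, -g.f, g.f ⬝ᵥ g.b - g.e • g.a, -(g.e • g.b)⟩⟩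
theorem mul_def (g h : Af k) :
    g * h = ⟨g.e * h.e, g.e • h.f + h.e • g.f, g.e • h.a + g.f ⬝ᵥ h.b + g.a, g.e • h.b + g.b⟩ := rfl
theorem one_def : (1 : Af k) = ⟨1, 0, 0, 0⟩ := rfl
theorem inv_def (g : Af k) : g⁻¹ = ⟨g.e, -g.f, g.f ⬝ᵥ g.b - g.e • g.a, -(g.e • g.b)⟩ := rfl

instance : Group (Af k) := Group.ofLeftAxioms
  (fun g h l => by
    rcases Int.units_eq_one_or g.e with a | a <;> rcases Int.units_eq_one_or h.e with b | b <;>
      rcases Int.units_eq_one_or l.e with c | c <;> ext1 <;> simp [mul_def, a, b, c] <;> abel)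
  (fun g => by ext1 <;> simp [mul_def, one_def])
  (fun g => by rcases Int.units_eq_one_or g.e with a | a <;> ext1 <;> simp [mul_def, one_def, inv_def, a, sub_eq_add_neg, add_assoc])

instance : Finite (Af k) := Finite.of_injective (fun g : Af k => (g.e, g.f, g.a, g.b)) fun g h e => by
  ext1 <;> simp_all

def sg : Af k →* ℤˣ := { toFun := Af.e, map_one' := rfl, map_mul' := fun _ _ => rfl }

theorem three (x : ZMod 3) : x + x + x = 0 := by revert x; decide
theorem two (x : ZMod 3) (h : -x = x) : x = 0 := by revert x; decide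

theorem cube (g : Af k) (h : g.e = 1) : g ^ 3 = 1 := by
  rw [pow_three']
  ext1
  · simp [mul_def, one_def, h]
  · ext i; simpa [mul_def, one_def, h, add_assoc] using three _
  · simp only [mul_def, one_def, h, mul_one, one_smul, add_dotProduct]
    linear_combination three g.a + three (g.f ⬝ᵥ g.b)
  · ext i; simpa [mul_def, one_def, h, add_assoc] using three _

theorem pk : IsPGroup 3 (sg (k := k)).ker := fun g => ⟨1, Subtype.ext (cube g.1 g.2)⟩

instance : Group.IsSolvable (Af k) :=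
  have : Fact (Nat.Prime 3) := ⟨by norm_num⟩
  have := (pk (k := k)).isNilpotent
  Group.isSolvable_of_ker_le_range sg.ker.subtype sg (by simp)

theorem triv {p : ℕ} (hp : p.Prime) (h3 : p ≠ 3) {S : Subgroup (Af k)} (hS : IsPGroup p S) (g : Af k) (hg : g ∈ S)
    (e : g.e = 1) : g = 1 := by
  obtain ⟨m, hm⟩ := hS ⟨g, hg⟩
  have h1 : g ^ p ^ m = 1 := congrArg Subtype.val hm
  have := pow_gcd_eq_one.2 ⟨h1, cube g e⟩
  rwa [Nat.Coprime.pow_left m ((Nat.coprime_primes hp (by norm_num)).2 h3), pow_one] at this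

theorem nrm {p : ℕ} (hp : p.Prime) (h2 : p ≠ 2) (S : Sylow p (Af k)) : (S : Subgroup (Af k)).Normal := by
  have le : (S : Subgroup (Af k)) ≤ sg.ker := fun g hg => by
    obtain ⟨m, hm⟩ := S.isPGroup' ⟨g, hg⟩
    have h1 : sg g ^ p ^ m = 1 := by rw [← map_pow, show g ^ p ^ m = 1 from congrArg Subtype.val hm, map_one]
    rcases Int.units_eq_one_or (sg g) with a | a
    · exact a
    · rw [a, ((hp.odd_of_ne_two h2).pow).neg_one_pow] at h1; exact absurd h1 (by decide)
  by_cases h3 : p = 3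
  · subst h3
    rw [← S.is_maximal' pk le]; infer_instance
  · rw [show (S : Subgroup (Af k)) = ⊥ from eq_bot_iff.2 fun g hg => triv hp h3 S.isPGroup' g hg (le hg)]
    infer_instance

theorem refl {S : Subgroup (Af k)} (hS : IsPGroup 2 S) :
    ∃ v, ∀ f : Fin k → ZMod 3, f ⬝ᵥ v = 0 → ∀ g ∈ S, g * ⟨1, f, 0, 0⟩ = ⟨1, f, 0, 0⟩ * g := by
  have t := triv Nat.prime_two (by norm_num) hS
  by_cases h : ∃ r ∈ S, r.e = -1
  · obtain ⟨r, hr, e⟩ := h
    refine ⟨r.b, fun f hf g hg => ?_⟩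
    rcases Int.units_eq_one_or g.e with a | a
    · rw [t g hg a, one_mul, mul_one]
    have h1 := congrArg Af.b (t _ (mul_mem hg hr) (by simp [mul_def, a, e]))
    have h2 := congrArg Af.f (t _ (mul_mem hg hg) (by simp [mul_def, a]))
    have h3 : g.f = 0 := funext fun i => two _ (by
      have := congrFun h2 i
      simp only [mul_def, one_def, a, Units.neg_smul, one_smul, Pi.add_apply, Pi.neg_apply, Pi.zero_apply] at this
      linear_combination this)
    have h4 : g.b = r.b := by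
      simp only [mul_def, one_def, a, Units.neg_smul, one_smul] at h1
      exact (neg_add_eq_zero.1 h1).symm
    ext1 <;> simp [mul_def, a, h3, h4, hf]
  · refine ⟨0, fun f _ g hg => ?_⟩
    rw [t g hg ((Int.units_eq_one_or g.e).resolve_right fun a => h ⟨g, hg, a⟩), one_mul, mul_one]

theorem ctr (z : Af k) (h : ∀ y, z * y = y * z) : z = 1 := by
  have h0 := h ⟨-1, 0, 0, 0⟩
  have a0 : z.a = 0 := two _ (by simpa [mul_def] using (congrArg Af.a h0).symm)
  have b0 : z.b = 0 := funext fun i => two _ (by simpa [mul_def] using (congrFun (congrArg Af.b h0) i).symm)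
  have e0 : z.e = 1 := (Int.units_eq_one_or z.e).resolve_right fun e => by
    have := congrArg Af.a (h ⟨-1, 0, 1, 0⟩)
    simp only [mul_def, e, a0, Units.neg_smul, one_smul, dotProduct_zero, zero_dotProduct] at this
    exact absurd this (by decide)
  have f0 : z.f = 0 := funext fun i => by simpa [mul_def, a0] using congrArg Af.a (h ⟨-1, 0, 0, Pi.single i 1⟩)
  ext1 <;> assumption

theorem ucs (i : ℕ) : Subgroup.upperCentralSeries (Af k) i = ⊥ := by
  induction i with
  | zero => simp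
  | succ i ih =>
    refine eq_bot_iff.2 fun z hz => ctr z fun y => ?_
    have := Subgroup.mem_upperCentralSeries_succ_iff.1 hz y
    rwa [ih, Subgroup.mem_bot, commutatorElement_eq_one_iff_mul_comm] at this

theorem ker (n : ℕ) (v : Fin n → Fin (n + 1) → ZMod 3) : ∃ f : Fin (n + 1) → ZMod 3, f ≠ 0 ∧ ∀ i, f ⬝ᵥ v i = 0 := by
  obtain ⟨x, y, ne, e⟩ := Fintype.exists_ne_map_eq_of_card_lt (fun (f : Fin (n + 1) → ZMod 3) i => f ⬝ᵥ v i)
    (by simp [Nat.pow_lt_pow_succ])
  exact ⟨x - y, sub_ne_zero.2 ne, fun i => by rw [sub_dotProduct, congrFun e i, sub_self]⟩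

end Pool.Agent.H.MP_c7d465_al
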